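import Pool.Agent.Lib_MP_6e4ab6_nt.Full.BF.C156_0
import Pool.Agent.Lib_MP_6e4ab6_nt.Full.BF.S156
import Pool.Agent.Lib_MP_6e4ab6_nt.Full.EngNum

/-! The conclusion at level 156. -/

set_option maxRecDepth 100000

namespace Pool.Agent.TriCos.Eng.B156

open Pool.Agent.TriCos.Eng

theorem hq : Nat.Prime 2199023255521 :=
  prime_of_pratt 2199023255521 29 [2, 3, 5, 7, 13, 19, 37, 73, 109] (by norm_num) (by norm_num) (by decide +kernel)
    (by decide +kernel) (by intro p hp; fin_cases hp <;> norm_num) (by decide +kernel)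

instance : Fact (Nat.Prime 2199023255521) := ⟨hq⟩

theorem hg : IsPrimitiveRoot ((18429777519 : ℕ) : ZMod 2199023255521) (2 * 156) :=
  prim_of_check 2199023255521 18429777519 (2 * 156) [2, 3, 13] (by norm_num) (by norm_num) (by norm_num)
    (by decide +kernel) (by decide +kernel) (by intro p hp; fin_cases hp <;> norm_num) (by decide +kernel)

theorem hc : ((1144911333886 : ℕ) : ZMod 2199023255521) = ((18429777519 : ℕ) : ZMod 2199023255521) + ((18429777519 : ℕ) : ZMod 2199023255521)⁻¹ :=
  inv_of_check 2199023255521 18429777519 1144911333886 (by norm_num) (by norm_num)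

theorem h0 : ∀ a b c, In a r0 → In b r0 → In c r0 →
    T3 2199023255521 (FT msk msk2 65536 1024 tr (acc 156 ht)) a b c :=
  fun a b c ha => absurd ha (by show ¬ In a NL.nil; exact id)

theorem hT : ∀ a b c, In a full → In b full → In c full →
    T3 2199023255521 (FT msk msk2 65536 1024 tr (acc 156 ht)) a b c :=
  trip_true _ _ _ _ t0 h0

theorem checks : Checks 156 2199023255521 1144911333886 full gs msk msk2 65536 1024 tr steps ht :=
  ⟨hE, by decide +kernel, by decide +kernel, hG, hT, hS, hh⟩

theorem bf (s : Fin 6 → ℤ) (hs : Sol (ang 156 s)) : Concl (ang 156 s) :=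
  bf_of_checks 156 2199023255521 1144911333886 _ (by norm_num) (by norm_num) hg (by norm_num) hc (by norm_num) full gs msk msk2
    65536 1024 tr steps ht checks s hs

end Pool.Agent.TriCos.Eng.B156
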