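import Pool.Agent.Lib_MP_6e4ab6_nt.Full.BF.D180
import Pool.Agent.Lib_MP_6e4ab6_nt.Full.EngMain

/-! Kernel checks at level 180 (generated). -/

set_option maxRecDepth 100000

namespace Pool.Agent.TriCos.Eng.B180

open Pool.Agent.TriCos.Eng

theorem hE : chkE 2199023255521 1967985301387 full 0 2 1967985301387 = true := by decide +kernel

theorem hG : chkG 2199023255521 180 full gs = true := by decide +kernel

theorem hS : loopS 2199023255521 180 (FS msk msk2 131072 2048 tr) full gs = true := by decide +kernel

theorem hh : allHT (hitOK tbl steps 180) ht = true := by decide +kernel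

end Pool.Agent.TriCos.Eng.B180
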