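import Pool.Agent.Lib_MP_6e4ab6_nt.Full.BF.D420

/-! Kernel checks at level 420 (generated). -/

set_option maxRecDepth 100000

namespace Pool.Agent.TriCos.Eng.B420

open Pool.Agent.TriCos.Eng

theorem t10 : trip 2199023255521 (FT msk msk2 524288 8192 tr (acc 420 ht)) r10 a10 = true := by
  decide +kernel

end Pool.Agent.TriCos.Eng.B420
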