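import Pool.Agent.Lib_MP_6e4ab6_nt.Full.BF.C420_0
import Pool.Agent.Lib_MP_6e4ab6_nt.Full.BF.C420_1
import Pool.Agent.Lib_MP_6e4ab6_nt.Full.BF.C420_2
import Pool.Agent.Lib_MP_6e4ab6_nt.Full.BF.C420_3
import Pool.Agent.Lib_MP_6e4ab6_nt.Full.BF.C420_4
import Pool.Agent.Lib_MP_6e4ab6_nt.Full.BF.C420_5
import Pool.Agent.Lib_MP_6e4ab6_nt.Full.BF.C420_6
import Pool.Agent.Lib_MP_6e4ab6_nt.Full.BF.C420_7
import Pool.Agent.Lib_MP_6e4ab6_nt.Full.BF.C420_8
import Pool.Agent.Lib_MP_6e4ab6_nt.Full.BF.C420_9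
import Pool.Agent.Lib_MP_6e4ab6_nt.Full.BF.C420_10
import Pool.Agent.Lib_MP_6e4ab6_nt.Full.BF.C420_11
import Pool.Agent.Lib_MP_6e4ab6_nt.Full.BF.C420_12
import Pool.Agent.Lib_MP_6e4ab6_nt.Full.BF.S420
import Pool.Agent.Lib_MP_6e4ab6_nt.Full.EngNum

/-! The conclusion at level 420. -/

set_option maxRecDepth 100000

namespace Pool.Agent.TriCos.Eng.B420

open Pool.Agent.TriCos.Eng

theorem hq : Nat.Prime 2199023255521 :=
  prime_of_pratt 2199023255521 29 [2, 3, 5, 7, 13, 19, 37, 73, 109] (by norm_num) (by norm_num) (by decide +kernel)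
    (by decide +kernel) (by intro p hp; fin_cases hp <;> norm_num) (by decide +kernel)

instance : Fact (Nat.Prime 2199023255521) := ⟨hq⟩

theorem hg : IsPrimitiveRoot ((1772461851313 : ℕ) : ZMod 2199023255521) (2 * 420) :=
  prim_of_check 2199023255521 1772461851313 (2 * 420) [2, 3, 5, 7] (by norm_num) (by norm_num) (by norm_num)
    (by decide +kernel) (by decide +kernel) (by intro p hp; fin_cases hp <;> norm_num) (by decide +kernel)

theorem hc : ((1984432835246 : ℕ) : ZMod 2199023255521) = ((1772461851313 : ℕ) : ZMod 2199023255521) + ((1772461851313 : ℕ) : ZMod 2199023255521)⁻¹ :=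
  inv_of_check 2199023255521 1772461851313 1984432835246 (by norm_num) (by norm_num)

theorem h12 : ∀ a b c, In a r12 → In b r12 → In c r12 →
    T3 2199023255521 (FT msk msk2 524288 8192 tr (acc 420 ht)) a b c :=
  fun a b c ha => absurd ha (by show ¬ In a NL.nil; exact id)

theorem h11 : ∀ a b c, In a r11 → In b r11 → In c r11 →
    T3 2199023255521 (FT msk msk2 524288 8192 tr (acc 420 ht)) a b c :=
  trip_true _ _ _ _ t12 h12

theorem h10 : ∀ a b c, In a r10 → In b r10 → In c r10 →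
    T3 2199023255521 (FT msk msk2 524288 8192 tr (acc 420 ht)) a b c :=
  trip_true _ _ _ _ t11 h11

theorem h9 : ∀ a b c, In a r9 → In b r9 → In c r9 →
    T3 2199023255521 (FT msk msk2 524288 8192 tr (acc 420 ht)) a b c :=
  trip_true _ _ _ _ t10 h10

theorem h8 : ∀ a b c, In a r8 → In b r8 → In c r8 →
    T3 2199023255521 (FT msk msk2 524288 8192 tr (acc 420 ht)) a b c :=
  trip_true _ _ _ _ t9 h9

theorem h7 : ∀ a b c, In a r7 → In b r7 → In c r7 →
    T3 2199023255521 (FT msk msk2 524288 8192 tr (acc 420 ht)) a b c :=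
  trip_true _ _ _ _ t8 h8

theorem h6 : ∀ a b c, In a r6 → In b r6 → In c r6 →
    T3 2199023255521 (FT msk msk2 524288 8192 tr (acc 420 ht)) a b c :=
  trip_true _ _ _ _ t7 h7

theorem h5 : ∀ a b c, In a r5 → In b r5 → In c r5 →
    T3 2199023255521 (FT msk msk2 524288 8192 tr (acc 420 ht)) a b c :=
  trip_true _ _ _ _ t6 h6

theorem h4 : ∀ a b c, In a r4 → In b r4 → In c r4 →
    T3 2199023255521 (FT msk msk2 524288 8192 tr (acc 420 ht)) a b c :=
  trip_true _ _ _ _ t5 h5

theorem h3 : ∀ a b c, In a r3 → In b r3 → In c r3 →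
    T3 2199023255521 (FT msk msk2 524288 8192 tr (acc 420 ht)) a b c :=
  trip_true _ _ _ _ t4 h4

theorem h2 : ∀ a b c, In a r2 → In b r2 → In c r2 →
    T3 2199023255521 (FT msk msk2 524288 8192 tr (acc 420 ht)) a b c :=
  trip_true _ _ _ _ t3 h3

theorem h1 : ∀ a b c, In a r1 → In b r1 → In c r1 →
    T3 2199023255521 (FT msk msk2 524288 8192 tr (acc 420 ht)) a b c :=
  trip_true _ _ _ _ t2 h2

theorem h0 : ∀ a b c, In a r0 → In b r0 → In c r0 →
    T3 2199023255521 (FT msk msk2 524288 8192 tr (acc 420 ht)) a b c :=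
  trip_true _ _ _ _ t1 h1

theorem hT : ∀ a b c, In a full → In b full → In c full →
    T3 2199023255521 (FT msk msk2 524288 8192 tr (acc 420 ht)) a b c :=
  trip_true _ _ _ _ t0 h0

theorem checks : Checks 420 2199023255521 1984432835246 full gs msk msk2 524288 8192 tr steps ht :=
  ⟨hE, by decide +kernel, by decide +kernel, hG, hT, hS, hh⟩

theorem bf (s : Fin 6 → ℤ) (hs : Sol (ang 420 s)) : Concl (ang 420 s) :=
  bf_of_checks 420 2199023255521 1984432835246 _ (by norm_num) (by norm_num) hg (by norm_num) hc (by norm_num) full gs msk msk2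
    524288 8192 tr steps ht checks s hs

end Pool.Agent.TriCos.Eng.B420
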