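import Pool.Agent.Lib_MP_6e4ab6_nt.Full.BF.D156

/-! Kernel checks at level 156 (generated). -/

set_option maxRecDepth 100000

namespace Pool.Agent.TriCos.Eng.B156

open Pool.Agent.TriCos.Eng

theorem t0 : trip 2199023255521 (FT msk msk2 65536 1024 tr (acc 156 ht)) r0 a0 = true := by
  decide +kernel

end Pool.Agent.TriCos.Eng.B156
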